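import Pool.Agent.H37.CTP.Stmts
import Pool.Agent.H25.CTL.T54

set_option autoImplicit false

namespace Pool.CND

open Finset Polynomial

namespace R5E

variable {k L : Type} [Field k] [Field L] [Algebra k L] (P : Place k L)

theorem ge_pow {x : L} {n : ℤ} (h : P.Ge x n) (hn : 0 ≤ n) (m : ℕ) (hm : 1 ≤ m) :
    P.Ge (x ^ m) n := by
  induction m, hm using Nat.le_induction with
  | base => rwa [pow_one]
  | succ m _ ih =>
    rw [pow_succ]
    exact P.ge_mono (P.ge_mul ih h) (by omega)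

theorem rel_sub [CharP L 2] (f q s : ℕ) (hq : q = 2 ^ f) (x X y E : L) (r : ℕ → L)
    (hy : y = X ^ q - x * X)
    (h : X ^ q ^ (s + 2) + ∑ j ∈ range (s + 2), r j * X ^ q ^ j = E) :
    y ^ q ^ (s + 1) + r 1 * y + ∑ j ∈ range s, r (j + 2) * y ^ q ^ (j + 1) +
      ((x * X) ^ q ^ (s + 1) + ∑ j ∈ range (s + 1), r (j + 1) * (x * X) ^ q ^ j + r 0 * X) = E := by
  haveI : Fact (Nat.Prime 2) := ⟨Nat.prime_two⟩
  have hX : ∀ j : ℕ, X ^ q ^ (j + 1) = y ^ q ^ j + (x * X) ^ q ^ j := by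
    intro j
    have e1 : X ^ q = y + x * X := by rw [hy]; ring
    have e2 : q ^ j = 2 ^ (f * j) := by rw [hq, pow_mul]
    rw [pow_succ', pow_mul, e1, e2, add_pow_char_pow]
  rw [← h, hX (s + 1), sum_range_succ' _ (s + 1)]
  have h1 : ∑ j ∈ range (s + 1), r (j + 1) * X ^ q ^ (j + 1) =
      (∑ j ∈ range s, r (j + 2) * y ^ q ^ (j + 1) + r 1 * y) +
        ∑ j ∈ range (s + 1), r (j + 1) * (x * X) ^ q ^ j := by
    have h2 : ∑ j ∈ range s, r (j + 2) * y ^ q ^ (j + 1) + r 1 * y =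
        ∑ j ∈ range (s + 1), r (j + 1) * y ^ q ^ j := by
      rw [sum_range_succ' _ s]
      simp
    rw [h2, ← sum_add_distrib]
    exact sum_congr rfl fun j _ => by rw [hX j]; ring
  rw [h1]
  simp only [pow_zero, pow_one]
  ring

theorem quot (A B y Yt Yp r S1 St B1 Bt : L) (hA : A ≠ 0) (hy : y ≠ 0)
    (h1 : A + r * y + S1 + B1 = 0) (h2 : B + r * Yt + St + Bt = Yp) :
    B / A - Yt / y - Yp / A = (Yt / y * S1 - St + Yt / y * B1 - Bt) / A := by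
  field_simp
  linear_combination y * h2 - Yt * h1

/-- the bracket is integral -/
theorem brk (q s n : ℕ) (hQ : q ^ (s + 1) = 2 * (n + 2)) (hq2 : 2 ≤ q) (x X : L) (r : ℕ → L)
    (e : ℤ) (he : 0 ≤ e) (hX : P.Ge X (-e))
    (hx : P.Ge x ((q * (2 * n + 2) - 1) * e))
    (hr0 : P.Ge (r 0) ((q - 1) * (2 * n + 2) * e))
    (hr : ∀ j, j ≤ s → P.Ge (r (j + 1)) (-((2 * n + 2) * e))) :
    P.Ge ((x * X) ^ q ^ (s + 1) + ∑ j ∈ range (s + 1), r (j + 1) * (x * X) ^ q ^ j + r 0 * X)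
      0 := by
  have hq2' : (2 : ℤ) ≤ q := by exact_mod_cast hq2
  have hn0 : (0 : ℤ) ≤ n := Int.natCast_nonneg n
  have h1 : P.Ge (x * X) ((2 * n + 2) * e) := by
    refine P.ge_mono (P.ge_mul hx hX) ?_
    have h2 : 0 ≤ ((q : ℤ) - 2) * (2 * n + 2) * e := by
      have : (0 : ℤ) ≤ q - 2 := by linarith
      positivity
    have h3 : 0 ≤ (n : ℤ) * e := by positivity
    nlinarith
  have h0 : 0 ≤ (2 * (n : ℤ) + 2) * e := by positivity
  have hp : ∀ j : ℕ, P.Ge ((x * X) ^ q ^ j) ((2 * n + 2) * e) := fun j =>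
    ge_pow P h1 h0 _ (Nat.one_le_pow _ _ (by omega))
  refine P.ge_add (P.ge_add (P.ge_mono (hp _) h0) (P.ge_sum _ _ _ fun j hj => ?_)) ?_
  · rw [mem_range] at hj
    exact P.ge_mono (P.ge_mul (hr j (by omega)) (hp j)) (by linarith)
  · refine P.ge_mono (P.ge_mul hr0 hX) ?_
    have h2 : 0 ≤ ((q : ℤ) - 2) * (2 * n + 2) * e := by
      have : (0 : ℤ) ≤ q - 2 := by linarith
      positivity
    have h3 : 0 ≤ (n : ℤ) * e := by positivity
    nlinarith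

/-- the error terms; `m = n + 2`, `Q = 2 m`, `A = q ^ j ≥ 2` -/
theorem err1 (n : ℕ) (A η tt τ : ℤ) (hA : 2 ≤ A) (hη : 0 ≤ η) (hto : tt = -((2 * n + 3) * η))
    (hτ : (n + 2) * τ = (n + 1) * tt) :
    (1 - 4 * (n + 2) ^ 2 + 6 * (n + 2)) * η ≤ (2 * n + 2 - A) * tt + A * τ := by
  have hn0 : (0 : ℤ) ≤ n := Int.natCast_nonneg n
  have h1 : 0 ≤ (A - 2) * (2 * n + 3) * η := by
    have : 0 ≤ A - 2 := by linarith
    positivity
  have h2 : 0 ≤ (n : ℤ) * η := by positivity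
  have h3 : ((n : ℤ) + 2) * ((1 - 4 * (n + 2) ^ 2 + 6 * (n + 2)) * η) ≤
      (n + 2) * ((2 * n + 2 - A) * tt + A * τ) := by
    have e1 : ((n : ℤ) + 2) * ((2 * n + 2 - A) * tt + A * τ) =
        (n + 2) * (2 * n + 2 - A) * tt + A * ((n + 1) * tt) := by
      rw [← hτ]; ring
    rw [e1, hto]
    nlinarith
  exact le_of_mul_le_mul_left h3 (by positivity)

theorem err2 (n : ℕ) (A η tt τ yo : ℤ) (hA : 2 ≤ A) (hη : 0 ≤ η)
    (hto : tt = -((2 * n + 3) * η)) (hyo : yo = -((2 * n + 1) * η))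
    (hτ : (n + 2) * τ = (n + 1) * tt) :
    (1 - 4 * (n + 2) ^ 2 + 6 * (n + 2)) * η ≤ (τ - yo) + ((2 * n + 2 - A) * tt + A * yo) := by
  have hn0 : (0 : ℤ) ≤ n := Int.natCast_nonneg n
  have h1 : 0 ≤ (A - 2) * (n + 2) * η := by
    have : 0 ≤ A - 2 := by linarith
    positivity
  have h2 : 0 ≤ (n : ℤ) * η := by positivity
  have h3 : ((n : ℤ) + 2) * ((1 - 4 * (n + 2) ^ 2 + 6 * (n + 2)) * η) ≤
      (n + 2) * ((τ - yo) + ((2 * n + 2 - A) * tt + A * yo)) := by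
    have e1 : ((n : ℤ) + 2) * ((τ - yo) + ((2 * n + 2 - A) * tt + A * yo)) =
        (n + 1) * tt - (n + 2) * yo + (n + 2) * ((2 * n + 2 - A) * tt + A * yo) := by
      rw [← hτ]; ring
    rw [e1, hto, hyo]
    nlinarith
  exact le_of_mul_le_mul_left h3 (by positivity)

theorem vord (n : ℕ) (η tt τ yo : ℤ) (hη : 0 ≤ η)
    (hto : tt = -((2 * n + 3) * η)) (hyo : yo = -((2 * n + 1) * η))
    (hτ : (n + 2) * τ = (n + 1) * tt) : -η ≤ τ - yo := by
  have hn0 : (0 : ℤ) ≤ n := Int.natCast_nonneg n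
  have h2 : 0 ≤ (n : ℤ) * η := by positivity
  have h3 : ((n : ℤ) + 2) * (-η) ≤ (n + 2) * (τ - yo) := by
    have e1 : ((n : ℤ) + 2) * (τ - yo) = (n + 1) * tt - (n + 2) * yo := by
      rw [← hτ]; ring
    rw [e1, hto, hyo]
    nlinarith
  exact le_of_mul_le_mul_left h3 (by positivity)

/-- the last part -/
theorem last [IsAlgClosed k] [CharP L 2] (f q s n : ℕ) (hf : 1 ≤ f) (hq : q = 2 ^ f)
    (hn : q ^ (s + 1) = 2 * (n + 2)) (t x0 y h : L) (g : L) (η : ℤ) (hη : 1 ≤ η)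
    (hto : P.ord t = -((2 * n + 3) * η)) (ht : t ≠ 0) (hx0 : x0 ≠ 0) (hy : y ≠ 0)
    (hg : g ^ (q - 1) = 1) (hh : h = g ^ (q / 2) * t ^ (n + 1) / y ^ (n + 2))
    (hx : P.Ge (x0 ^ (q - 1) * t ^ (q * (2 * n + 2) - 1) + 1) (-P.ord t))
    (hy1 : P.Ge (y ^ (2 * n + 3) / t ^ (2 * n + 1) - 1) (2 * η)) (hho : P.ord h = -η) :
    ∃ α : k, α ≠ 0 ∧
      P.Ge (y / x0 ^ q - algebraMap k L α * h ^ nu2 q s) (((nu2 q s : ℤ) - 2) * P.ord h) := by
  haveI : Fact (Nat.Prime 2) := ⟨Nat.prime_two⟩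
  have two0 : (2 : L) = 0 := by
    have := CharP.cast_eq_zero L 2
    exact_mod_cast this
  have hn0 : (0 : ℤ) ≤ n := Int.natCast_nonneg n
  have hq1 : 1 ≤ q := by rw [hq]; exact Nat.one_le_two_pow
  have hg0 : g ≠ 0 := by
    rintro rfl
    have hq2 : 2 ≤ q := by
      rw [hq]
      calc 2 = 2 ^ 1 := (pow_one 2).symm
        _ ≤ 2 ^ f := Nat.pow_le_pow_right (by norm_num) hf
    rw [zero_pow (by omega)] at hg
    exact zero_ne_one hg
  have hh0 : h ≠ 0 := by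
    rw [hh]
    exact div_ne_zero (mul_ne_zero (pow_ne_zero _ hg0) (pow_ne_zero _ ht)) (pow_ne_zero _ hy)
  set S : ℕ := ∑ i ∈ range (s + 1), q ^ i with hS
  have hgeo : (q - 1) * S = 2 * n + 3 := by
    have h1 := Nat.geomSum_eq (m := q) (by
      rw [hq]
      calc 2 = 2 ^ 1 := (pow_one 2).symm
        _ ≤ 2 ^ f := Nat.pow_le_pow_right (by norm_num) hf) (s + 1)
    have h2 : (q - 1) ∣ q ^ (s + 1) - 1 := by
      simpa using Nat.sub_dvd_pow_sub_pow q 1 (s + 1)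
    rw [hS, h1, Nat.mul_div_cancel' h2, hn]
    omega
  set D : ℕ := q * (2 * n + 2) - 1 with hD
  have hν : nu2 q s = 2 * n + 1 + q * D * S := by
    unfold nu2
    rw [hn, ← hS]
    have e1 : 2 * (n + 2) - 3 = 2 * n + 1 := by omega
    have e2 : 2 * (n + 2) - 2 = 2 * n + 2 := by omega
    rw [e1, e2]
  set wy : L := y ^ (2 * n + 3) / t ^ (2 * n + 1) with hwy
  set wx : L := x0 ^ (q - 1) * t ^ D with hwx
  have hη2 : (1 : ℤ) ≤ 2 * η := by omega
  have hx1 : P.Ge (wx - 1) (2 * η) := by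
    have e1 : wx - 1 = wx + 1 - 2 := by ring
    rw [e1, two0, sub_zero]
    refine P.ge_mono hx ?_
    rw [hto]
    have : 0 ≤ (n : ℤ) * η := by positivity
    nlinarith
  obtain ⟨hwy0, -⟩ := T54.u_ord P hη2 hy1
  obtain ⟨hwx0, -⟩ := T54.u_ord P hη2 hx1
  have hyp : y ^ (2 * n + 3) = wy * t ^ (2 * n + 1) := by
    rw [hwy]; field_simp
  have hxp : x0 ^ (q - 1) = wx * (t ^ D)⁻¹ := by
    rw [hwx]; field_simp
  have hgp : g ^ (2 * n + 3) = 1 := by rw [← hgeo, pow_mul, hg, one_pow]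
  have hhp : h ^ (2 * n + 3) = t * (wy ^ (n + 2))⁻¹ := by
    have e1 : (g ^ (q / 2)) ^ (2 * n + 3) = 1 := by
      rw [← pow_mul, mul_comm, pow_mul, hgp, one_pow]
    have e2 : (y ^ (n + 2)) ^ (2 * n + 3) = wy ^ (n + 2) * (t ^ (2 * n + 1)) ^ (n + 2) := by
      rw [← pow_mul, mul_comm, pow_mul, hyp, mul_pow]
    have e3 : (t ^ (n + 1)) ^ (2 * n + 3) = t * (t ^ (2 * n + 1)) ^ (n + 2) := by
      rw [← pow_mul, ← pow_mul, ← pow_succ']
      congr 1
      ring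
    rw [hh, div_pow, mul_pow, e1, e2, e3]
    have : (t ^ (2 * n + 1)) ^ (n + 2) ≠ 0 := pow_ne_zero _ (pow_ne_zero _ ht)
    field_simp
  have hxq : (x0 ^ q) ^ (2 * n + 3) = wx ^ (q * S) * (t ^ (q * D * S))⁻¹ := by
    have e1 : (x0 ^ q) ^ (2 * n + 3) = (x0 ^ (q - 1)) ^ (q * S) := by
      rw [← pow_mul, ← pow_mul, ← hgeo]
      congr 1
      ring
    rw [e1, hxp, mul_pow, inv_pow, ← pow_mul]
    congr 3
    ring
  have hmain : (y / x0 ^ q / h ^ nu2 q s) ^ (q ^ (s + 1) - 1) =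
      algebraMap k L 1 * (wy * (wx⁻¹) ^ (q * S) * wy ^ ((n + 2) * nu2 q s)) := by
    have e0 : q ^ (s + 1) - 1 = 2 * n + 3 := by omega
    have e1 : (h ^ nu2 q s) ^ (2 * n + 3) = t ^ nu2 q s * (wy ^ ((n + 2) * nu2 q s))⁻¹ := by
      rw [← pow_mul, mul_comm, pow_mul, hhp, mul_pow, inv_pow, ← pow_mul]
    rw [e0, div_pow, div_pow, e1, hxq, hyp, map_one, one_mul, hν]
    have e2 : t ^ (2 * n + 1 + q * D * S) = t ^ (2 * n + 1) * t ^ (q * D * S) := pow_add _ _ _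
    rw [e2, inv_pow]
    have h1 : t ^ (q * D * S) ≠ 0 := pow_ne_zero _ ht
    have h2 : t ^ (2 * n + 1) ≠ 0 := pow_ne_zero _ ht
    have h3 : wx ^ (q * S) ≠ 0 := pow_ne_zero _ hwx0
    have h4 : wy ^ ((n + 2) * (2 * n + 1 + q * D * S)) ≠ 0 := pow_ne_zero _ hwy0
    field_simp
  obtain ⟨α, δ, hα0, -, hαδ, hδ, -⟩ := T54.root P (p := 2) (f * (s + 1)) (q ^ (s + 1))
    (by rw [hq, pow_mul]) (by omega) (2 * η) hη2 (y / x0 ^ q / h ^ nu2 q s)
    (wy * (wx⁻¹) ^ (q * S) * wy ^ ((n + 2) * nu2 q s)) 1 one_ne_zero hmain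
    (T54.u_mul P (by omega) (T54.u_mul P (by omega) hy1
      (T54.u_pow P (by omega) (T54.u_inv P hη2 hx1) _)) (T54.u_pow P (by omega) hy1 _))
  refine ⟨α, hα0, ?_⟩
  have e1 : y / x0 ^ q - algebraMap k L α * h ^ nu2 q s =
      algebraMap k L α * h ^ nu2 q s * δ := by
    have e2 : y / x0 ^ q = y / x0 ^ q / h ^ nu2 q s * h ^ nu2 q s := by
      rw [div_mul_cancel₀ _ (pow_ne_zero _ hh0)]
    rw [e2, hαδ]
    ring
  rw [e1]
  refine P.ge_mono (P.ge_mul (P.ge_mul (P.ge_const α) (P.ge_ord _)) hδ) ?_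
  rw [P.ord_pow hh0, hho]
  linarith

end R5E

theorem r5e_thm (h53 : S_R53) (h54 : S_R54) (h5d : S_R5D) : S_R5E := by
  intro k F L _ _ _ _ _ _ _ f q s t X Y Yt Yp h z ζ P hch hf hq hF hQ4 hR hO hY hζ hYp hh hz
  haveI : Fact (Nat.Prime 2) := ⟨Nat.prime_two⟩
  haveI hcL : CharP L 2 := charP_of_injective_algebraMap (algebraMap k L).injective 2
  have two0 : (2 : L) = 0 := by
    have := CharP.cast_eq_zero L 2
    exact_mod_cast this
  obtain ⟨hX0, hYl, hYp0, r, e0, e1, e2, e3, e4, e5⟩ :=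
    h53 k F L f q s t X Y Yt Yp hch hf hq hF hQ4 hR hY
  obtain ⟨g1, g2, g3, hYt0, g4, -⟩ :=
    h54 k F L f q s t X Y Yt Yp P hch hf hq hF hQ4 hR hO hY
  obtain ⟨d1, d2, d3, -⟩ := h5d k F L f q s t X Y Yt Yp P r hch hf hq hF hQ4 hR hO hY e0 e1 e2 e3
  have hq2 : 2 ≤ q := by
    rw [hq]
    calc 2 = 2 ^ 1 := (pow_one 2).symm
      _ ≤ 2 ^ f := Nat.pow_le_pow_right (by norm_num) hf
  have hq2' : (2 : ℤ) ≤ q := by exact_mod_cast hq2
  have hev : 2 ∣ q := by rw [hq]; exact dvd_pow_self 2 (by omega)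
  obtain ⟨n, hn⟩ : ∃ n, q ^ (s + 1) = 2 * (n + 2) := by
    obtain ⟨m, hm⟩ : 2 ∣ q ^ (s + 1) := dvd_pow hev (by omega)
    exact ⟨m - 2, by omega⟩
  have hnZ : (q : ℤ) ^ (s + 1) = 2 * ((n : ℤ) + 2) := by exact_mod_cast hn
  have hn0 : (0 : ℤ) ≤ n := Int.natCast_nonneg n
  have ht : t ≠ 0 := by
    rintro rfl
    exact hR.tr isAlgebraic_zero
  have htneg := hO.neg
  set g : L := algebraMap k L ζ with hg
  have hg1 : g ^ (q - 1) = 1 := by rw [hg, ← map_pow, hζ, map_one]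
  have hζ0 : ζ ≠ 0 := by
    rintro rfl
    rw [zero_pow (by omega)] at hζ
    exact zero_ne_one hζ
  have hg0 : g ≠ 0 := by
    rw [hg, Ne, map_eq_zero_iff _ (algebraMap k L).injective]; exact hζ0
  have hY0 := hYl 0
  have n1 : q ^ (s + 1) / 2 = n + 2 := by omega
  have n2 : (q ^ (s + 1) - 2) / 2 = n + 1 := by omega
  have n3 : q ^ (s + 1) - 2 = 2 * n + 2 := by omega
  have n4 : q ^ (s + 1) - 3 = 2 * n + 1 := by omega
  have n5 : q ^ (s + 1) - 1 = 2 * n + 3 := by omega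
  rw [n1, n2] at hh
  rw [n1] at hz
  rw [n3] at hYp g1
  rw [hnZ] at g2 g3 g4 d1 d2 d3
  rw [n4, n5] at g3
  have hh0 : h ≠ 0 := by
    rw [hh]
    exact div_ne_zero (mul_ne_zero (pow_ne_zero _ hg0) (pow_ne_zero _ ht)) (pow_ne_zero _ hY0)
  -- orders
  obtain ⟨η, hη⟩ : ∃ η, P.ord h = -η := ⟨-P.ord h, by ring⟩
  have ho1 : P.ord h = (n + 1) * P.ord t - (n + 2) * P.ord (Y 0) := by
    rw [hh, P.ord_div (mul_ne_zero (pow_ne_zero _ hg0) (pow_ne_zero _ ht)) (pow_ne_zero _ hY0),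
      P.ord_mul _ _ (pow_ne_zero _ hg0) (pow_ne_zero _ ht), P.ord_pow hg0, P.ord_pow ht,
      P.ord_pow hY0, hg, P.ord_const ζ hζ0]
    push_cast
    ring
  have ho2 : (2 * (n : ℤ) + 3) * P.ord h = P.ord t := by
    rw [ho1]
    linear_combination (-((n : ℤ) + 2)) * g2 0
  have hto : P.ord t = -((2 * n + 3) * η) := by
    rw [← ho2, hη]; ring
  have hη1 : 1 ≤ η := by
    by_contra hcon
    have : (2 * (n : ℤ) + 3) * η ≤ 0 := mul_nonpos_of_nonneg_of_nonpos (by positivity) (by omega)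
    omega
  have hyo : P.ord (Y 0) = -((2 * n + 1) * η) := by
    have h1 := g2 0
    have h2 : (2 * (n : ℤ) + 3) * P.ord (Y 0) = (2 * n + 3) * (-((2 * n + 1) * η)) := by
      rw [hto] at h1
      linear_combination h1
    exact mul_left_cancel₀ (by positivity) h2
  have hτ : ((n : ℤ) + 2) * P.ord Yt = (n + 1) * P.ord t := by
    linarith
  have hηn : 0 ≤ (n : ℤ) * η := by positivity
  -- h ^ 2
  have hh2 : h ^ 2 = g * t ^ (2 * n + 2) / Y 0 ^ q ^ (s + 1) := by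
    have h1 : (g ^ (q / 2)) ^ 2 = g := by
      rw [← pow_mul, Nat.div_mul_cancel hev]
      have : q = (q - 1) + 1 := by omega
      rw [this, pow_succ, hg1, one_mul]
    rw [hh, div_pow, mul_pow, h1, ← pow_mul, ← pow_mul, hn]
    congr 2
    · congr 1
      ring
    · ring
  have hc0 : Yp / Y 0 ^ q ^ (s + 1) - h ^ 2 = h ^ 2 * (Yp / (g * t ^ (2 * n + 2)) - 1) := by
    rw [hh2]
    have h1 : Y 0 ^ q ^ (s + 1) ≠ 0 := pow_ne_zero _ hY0
    have h2 : t ^ (2 * n + 2) ≠ 0 := pow_ne_zero _ ht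
    field_simp
  have hc : P.Ge (Yp / Y 0 ^ q ^ (s + 1) - h ^ 2) η := by
    rw [hc0]
    refine P.ge_mono (P.ge_mul (P.ge_ord _) hYp) ?_
    rw [P.ord_pow hh0, hη, hto]
    push_cast
    nlinarith
  -- the relations
  set x : L := X 0 ^ (q - 1) with hx
  have hxo : P.ord x = (q * (2 * n + 2) - 1) * -P.ord t := by
    have h1 := hO.small
    rw [hnZ] at h1
    rw [hx, P.ord_pow hX0, Nat.cast_sub (by omega)]
    push_cast
    linear_combination h1
  have hcst : ∀ c : F, cst k F L c = algebraMap k L (algebraMap F k c) := fun c => rfl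
  have hsum : ∀ i : Fin (s + 3), ∑ j, cst k F L ((Pi.single i 1 : Fin (s + 3) → F) j) * X j =
      X i := by
    intro i
    rw [Finset.sum_eq_single i]
    · rw [Pi.single_eq_same, hcst, map_one, map_one, one_mul]
    · intro j _ hj
      rw [Pi.single_eq_of_ne hj, hcst, map_zero, map_zero, zero_mul]
    · intro hi
      exact absurd (Finset.mem_univ i) hi
  have hXl : P.Ge (X (Fin.last (s + 2))) (-(-P.ord t)) := by
    have h1 := hO.top (Pi.single (Fin.last (s + 2)) 1) (by rw [Pi.single_eq_same]; exact one_ne_zero)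
    rw [hsum, hnZ] at h1
    refine Or.inr ?_
    rw [neg_neg]
    have h2 : (q : ℤ) * (2 * (n + 2)) * P.ord t ≤ (q : ℤ) * (2 * (n + 2)) *
        P.ord (X (Fin.last (s + 2))) := by
      rw [h1]
      have h3 : 0 ≤ ((q : ℤ) - 2) * (2 * (n + 2)) * (-P.ord t) := by
        have : (0 : ℤ) ≤ q - 2 := by linarith
        have : 0 ≤ -P.ord t := by linarith
        positivity
      nlinarith
    exact le_of_mul_le_mul_left h2 (by positivity)
  have hi1 : mi s 0 ≠ Fin.last (s + 2) := by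
    intro hc
    have := congrArg Fin.val hc
    simp [mi] at this
  have hi0 : mi s 0 ≠ 0 := by
    intro hc
    have := congrArg Fin.val hc
    simp [mi] at this
  have hX1 : P.Ge (X (mi s 0)) (-(-P.ord t)) := by
    have h1 := hO.mid (Pi.single (mi s 0) 1) (by rw [Pi.single_eq_of_ne hi1.symm])
      ⟨mi s 0, hi0, by rw [Pi.single_eq_same]; exact one_ne_zero⟩
    rw [hsum, hnZ] at h1
    refine Or.inr ?_
    rw [neg_neg]
    have h2 : (q : ℤ) * (2 * (n + 2) - 1) * P.ord t ≤ (q : ℤ) * (2 * (n + 2) - 1) *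
        P.ord (X (mi s 0)) := by
      rw [h1]
      have h3 : 0 ≤ ((q : ℤ) - 2) * (2 * n + 3) * (-P.ord t) := by
        have : (0 : ℤ) ≤ q - 2 := by linarith
        have : 0 ≤ -P.ord t := by linarith
        positivity
      nlinarith
    have h4 : (0 : ℤ) < q * (2 * (n + 2) - 1) := by
      have : (0 : ℤ) < 2 * (n + 2) - 1 := by linarith
      have : (0 : ℤ) < q := by linarith
      positivity
    exact le_of_mul_le_mul_left h2 h4
  have hr0 : P.Ge (r 0) ((q - 1) * (2 * n + 2) * -P.ord t) := by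
    refine P.ge_mono (P.ge_ord _) ?_
    rw [d2]
    apply le_of_eq
    ring
  have hrj : ∀ j, j ≤ s → P.Ge (r (j + 1)) (-((2 * n + 2) * -P.ord t)) := by
    intro j hj
    refine P.ge_mono (P.ge_ord _) ?_
    rw [d3 (j + 1) (by omega) (by omega)]
    have : (0 : ℤ) ≤ (q : ℤ) ^ (j + 1 - 1) * (-P.ord t) := by
      have : 0 ≤ -P.ord t := by linarith
      positivity
    linarith
  have hxGe : P.Ge x ((q * (2 * n + 2) - 1) * -P.ord t) := P.ge_mono (P.ge_ord _) hxo.ge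
  have hBt := R5E.brk P q s n hn hq2 x (X (Fin.last (s + 2))) r (-P.ord t) (by omega) hXl hxGe
    hr0 hrj
  have hB1 := R5E.brk P q s n hn hq2 x (X (mi s 0)) r (-P.ord t) (by omega) hX1 hxGe hr0 hrj
  set Bt : L := (x * X (Fin.last (s + 2))) ^ q ^ (s + 1) +
    ∑ j ∈ range (s + 1), r (j + 1) * (x * X (Fin.last (s + 2))) ^ q ^ j +
    r 0 * X (Fin.last (s + 2)) with hBtd
  set B1 : L := (x * X (mi s 0)) ^ q ^ (s + 1) +
    ∑ j ∈ range (s + 1), r (j + 1) * (x * X (mi s 0)) ^ q ^ j + r 0 * X (mi s 0) with hB1d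
  have r1 := R5E.rel_sub f q s hq x (X (mi s 0)) (Y 0) 0 r (hY.y 0) (e4 _ hi1)
  have r2 := R5E.rel_sub f q s hq x (X (Fin.last (s + 2))) Yt Yp r hY.yt e5
  rw [← hB1d] at r1
  rw [← hBtd] at r2
  set S1 : L := ∑ j ∈ range s, r (j + 2) * Y 0 ^ q ^ (j + 1) with hS1d
  set St : L := ∑ j ∈ range s, r (j + 2) * Yt ^ q ^ (j + 1) with hStd
  have hquot := R5E.quot (Y 0 ^ q ^ (s + 1)) (Yt ^ q ^ (s + 1)) (Y 0) Yt Yp (r 1) S1 St B1 Bt
    (pow_ne_zero _ hY0) hY0 (by linear_combination r1) (by linear_combination r2)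
  -- the errors
  set N : ℤ := (1 - 4 * ((n : ℤ) + 2) ^ 2 + 6 * (n + 2)) * η with hN
  have hN0 : N ≤ -η := by
    rw [hN]
    have : 0 ≤ (n : ℤ) ^ 2 * η := by positivity
    nlinarith
  have hvo : P.ord (Yt / Y 0) = P.ord Yt - P.ord (Y 0) := P.ord_div hYt0 hY0
  have hA : ∀ j : ℕ, (2 : ℤ) ≤ (q : ℤ) ^ (j + 1) := by
    intro j
    have : 2 ≤ q ^ (j + 1) := le_trans hq2 (Nat.le_self_pow (by omega) q)
    exact_mod_cast this
  have hrjo : ∀ j ∈ range s, P.Ge (r (j + 2)) ((2 * n + 2 - (q : ℤ) ^ (j + 1)) * P.ord t) := by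
    intro j hj
    rw [mem_range] at hj
    refine P.ge_mono (P.ge_ord _) ?_
    rw [d3 (j + 2) (by omega) (by omega)]
    apply le_of_eq
    have : j + 2 - 1 = j + 1 := by omega
    rw [this]
    ring
  have hSt : P.Ge St N := by
    refine P.ge_sum _ _ _ fun j hj => ?_
    refine P.ge_mono (P.ge_mul (hrjo j hj) (P.ge_ord (Yt ^ q ^ (j + 1)))) ?_
    rw [P.ord_pow hYt0]
    push_cast
    exact R5E.err1 n _ η _ _ (hA j) (by omega) hto hτ
  have hS1 : P.Ge (Yt / Y 0 * S1) N := by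
    rw [hS1d, mul_sum]
    refine P.ge_sum _ _ _ fun j hj => ?_
    refine P.ge_mono (P.ge_mul (P.ge_ord (Yt / Y 0))
      (P.ge_mul (hrjo j hj) (P.ge_ord (Y 0 ^ q ^ (j + 1))))) ?_
    rw [P.ord_pow hY0, hvo]
    push_cast
    exact R5E.err2 n _ η _ _ _ (hA j) (by omega) hto hyo hτ
  have hvB : P.Ge (Yt / Y 0 * B1) N := by
    refine P.ge_mono (P.ge_mul (P.ge_ord (Yt / Y 0)) hB1) ?_
    rw [hvo]
    have := R5E.vord n η _ _ _ (by omega) hto hyo hτ
    linarith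
  have hnum : P.Ge (Yt / Y 0 * S1 - St + Yt / Y 0 * B1 - Bt) N :=
    P.ge_sub (P.ge_add (P.ge_sub hS1 hSt) hvB) (P.ge_mono hBt (by omega))
  have hdiv : P.Ge ((Yt / Y 0 * S1 - St + Yt / Y 0 * B1 - Bt) / Y 0 ^ q ^ (s + 1)) η := by
    rw [div_eq_mul_inv]
    refine P.ge_mono (P.ge_mul hnum (P.ge_ord _)) ?_
    rw [P.ord_inv (pow_ne_zero _ hY0), P.ord_pow hY0, hyo, hN]
    push_cast
    rw [hnZ]
    apply le_of_eq
    ring
  set v : L := Yt / Y 0 with hv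
  set ε : L := v ^ q ^ (s + 1) - v - h ^ 2 with hε
  have hεGe : P.Ge ε η := by
    have h1 : ε = (Yp / Y 0 ^ q ^ (s + 1) - h ^ 2) +
        (v * S1 - St + v * B1 - Bt) / Y 0 ^ q ^ (s + 1) := by
      rw [← hquot, hε, hv, div_pow]
      ring
    rw [h1]
    exact P.ge_add hc hdiv
  have hz2 : z ^ 2 = v + ε := by
    have h1 : (v ^ (n + 2)) ^ 2 = v ^ q ^ (s + 1) := by
      rw [hn, ← pow_mul]; congr 1; ring
    rw [hz, hε]
    linear_combination h1 + (v ^ (n + 2) * h + h ^ 2) * two0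
  have hzQ : z ^ q ^ (s + 1) = v ^ (n + 2) + ε ^ (n + 2) := by
    obtain ⟨m, hm⟩ : ∃ m, f * (s + 1) = m + 1 := by
      refine ⟨f * (s + 1) - 1, ?_⟩
      have : 1 ≤ f * (s + 1) := Nat.mul_pos hf (by omega)
      omega
    have hm2 : n + 2 = 2 ^ m := by
      have h1 : q ^ (s + 1) = 2 * 2 ^ m := by
        rw [hq, ← pow_mul, hm, pow_succ]; ring
      omega
    rw [hn, pow_mul, hz2, hm2, add_pow_char_pow]
  rw [hη, neg_neg, hnZ]
  refine ⟨hh0, ?_, hc, ?_, ?_, ?_⟩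
  · rw [hto]; ring
  · have h1 : v - z ^ 2 = -ε := by rw [hz2]; ring
    rw [h1]
    exact P.ge_neg hεGe
  · have h1 : z ^ q ^ (s + 1) - z - h = ε ^ (n + 2) := by
      rw [hzQ, hz]
      linear_combination (-h) * two0
    rw [h1]
    exact R5E.ge_pow P hεGe (by omega) _ (by omega)
  · rw [← hη]
    refine R5E.last P f q s n hf hq hn t (X 0) (Y 0) h g η hη1 hto ht hX0 hY0 hg1 hh g1 ?_ hη
    rcases g3 0 with h1 | h1
    · rw [h1, sub_self]; exact P.ge_zero _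
    · refine Or.inr ?_
      have h2 : (2 * (n : ℤ) + 3) * (2 * η) ≤
          (2 * n + 3) * P.ord (Y 0 ^ (2 * n + 3) / t ^ (2 * n + 1) - 1) := by
        rw [hto] at h1
        linarith
      exact le_of_mul_le_mul_left h2 (by positivity)

end Pool.CND
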